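import Pool.Agent.Helper10.Ulam.Defs

set_option autoImplicit false

namespace Pool.Agent.Helper10.Ulam

/-- the candidates for the next term -/
def cand (f : ℕ → ℕ) (n : ℕ) : Set ℕ :=
  {m : ℕ | f (n - 1) < m ∧ ∃! p : ℕ × ℕ, 1 ≤ p.1 ∧ p.1 < p.2 ∧ p.2 < n ∧ f p.1 + f p.2 = m}

/-- approximations -/
noncomputable def F : ℕ → ℕ → ℕ
  | 0 => fun i => i
  | k + 1 => Function.update (F k) (k + 3) (sInf (cand (F k) (k + 3)))

lemma F_stable (k d j : ℕ) (hj : j ≤ k + 2) : F (k + d) j = F k j := by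
  induction d with
  | zero => rfl
  | succ d ih =>
    rw [← add_assoc, F, Function.update_of_ne (by omega), ih]

noncomputable def ulam (n : ℕ) : ℕ := F n n

lemma ulam_eq (k j : ℕ) (hj : j ≤ k + 2) : ulam j = F k j := by
  unfold ulam
  rcases le_total j k with h | h
  · obtain ⟨d, rfl⟩ := Nat.exists_eq_add_of_le h
    exact (F_stable j d j (by omega)).symm
  · obtain ⟨d, hd⟩ := Nat.exists_eq_add_of_le h
    have := F_stable k d j hj
    rw [← hd] at this
    exact this

lemma cand_congr (f g : ℕ → ℕ) (n : ℕ) (hn : 3 ≤ n) (h : ∀ j < n, f j = g j) : cand f n = cand g n := by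
  unfold cand
  ext m
  simp only [Set.mem_ofPred_eq]
  rw [h (n - 1) (by omega)]
  have : ∀ p : ℕ × ℕ, (1 ≤ p.1 ∧ p.1 < p.2 ∧ p.2 < n ∧ f p.1 + f p.2 = m) ↔
      (1 ≤ p.1 ∧ p.1 < p.2 ∧ p.2 < n ∧ g p.1 + g p.2 = m) := by
    intro p
    constructor
    · rintro ⟨h1, h2, h3, h4⟩
      rw [h p.1 (by omega), h p.2 h3] at h4
      exact ⟨h1, h2, h3, h4⟩
    · rintro ⟨h1, h2, h3, h4⟩
      rw [← h p.1 (by omega), ← h p.2 h3] at h4
      exact ⟨h1, h2, h3, h4⟩
  rw [existsUnique_congr this]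

lemma ulam_succ (n : ℕ) (hn : 3 ≤ n) : ulam n = sInf (cand ulam n) := by
  obtain ⟨k, rfl⟩ : ∃ k, n = k + 3 := ⟨n - 3, by omega⟩
  rw [ulam_eq (k + 1) (k + 3) (by omega), F, Function.update_self]
  congr 1
  apply cand_congr _ _ _ (by omega)
  intro j hj
  exact (ulam_eq k j (by omega)).symm

lemma ulam_one : ulam 1 = 1 := by
  rw [ulam_eq 0 1 (by omega)]; rfl

lemma ulam_two : ulam 2 = 2 := by
  rw [ulam_eq 0 2 (by omega)]; rfl

/-- if the sequence is strictly increasing below `n`, there is a candidate -/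
lemma cand_nonempty (f : ℕ → ℕ) (n : ℕ) (hn : 3 ≤ n) (h1 : 0 < f 1)
    (hmono : ∀ i j, 1 ≤ i → i < j → j < n → f i < f j) : (cand f n).Nonempty := by
  refine ⟨f (n - 2) + f (n - 1), ?_, (n - 2, n - 1), ⟨by simp only; omega, by simp only; omega, by simp only; omega, rfl⟩, ?_⟩
  · have : 0 < f (n - 2) := by
      rcases Nat.eq_or_lt_of_le (show 1 ≤ n - 2 by omega) with h | h
      · rw [← h]; exact h1
      · exact lt_trans h1 (hmono 1 (n - 2) le_rfl h (by omega))
    omega
  · rintro ⟨i, j⟩ ⟨hi, hij, hj, hs⟩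
    simp only at hi hij hj hs
    have hj' : j = n - 1 := by
      by_contra hne
      have h2 : f j ≤ f (n - 2) := by
        rcases Nat.eq_or_lt_of_le (show j ≤ n - 2 by omega) with h | h
        · rw [h]
        · exact (hmono j (n - 2) (by omega) h (by omega)).le
      have h3 : f i < f (n - 1) := hmono i (n - 1) hi (by omega) (by omega)
      omega
    subst hj'
    have hi' : i = n - 2 := by
      by_contra hne
      have h2 : f i < f (n - 2) := hmono i (n - 2) hi (by omega) (by omega)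
      omega
    subst hi'
    rfl

lemma ulam_mono (n : ℕ) : ∀ i j, 1 ≤ i → i < j → j < n → ulam i < ulam j := by
  induction n with
  | zero => intro i j _ _ h; omega
  | succ n ih =>
    intro i j hi hij hj
    rcases Nat.lt_or_ge j n with h | h
    · exact ih i j hi hij h
    · have hjn : j = n := by omega
      subst hjn
      rcases Nat.lt_or_ge j 3 with h3 | h3
      · have : i = 1 ∧ j = 2 := by omega
        rw [this.1, this.2, ulam_one, ulam_two]
        norm_num
      · have hne := cand_nonempty ulam j h3 (by rw [ulam_one]; norm_num) ih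
        have hmem := Nat.sInf_mem hne
        rw [← ulam_succ j h3] at hmem
        have h4 : ulam (j - 1) < ulam j := hmem.1
        rcases Nat.eq_or_lt_of_le (show i ≤ j - 1 by omega) with h | h
        · rw [h]; exact h4
        · exact lt_trans (ih i (j - 1) hi h (by omega)) h4

theorem isUlamSequence_ulam : IsUlamSequence ulam := by
  refine ⟨ulam_one, ulam_two, ?_⟩
  intro n hn
  have hne := cand_nonempty ulam n hn (by rw [ulam_one]; norm_num) (ulam_mono n)
  rw [ulam_succ n hn]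
  exact ⟨Nat.sInf_mem hne, fun m hm => Nat.sInf_le hm⟩

section general

variable {u : ℕ → ℕ}

lemma lt_of_isUlam (hu : IsUlamSequence u) (i j : ℕ) (hi : 1 ≤ i) (hij : i < j) : u i < u j := by
  induction j, hij using Nat.le_induction with
  | base =>
    rcases Nat.lt_or_ge (i + 1) 3 with h | h
    · have : i = 1 := by omega
      subst this
      rw [hu.1, hu.2.1]; norm_num
    · have := (hu.2.2 (i + 1) h).1.1
      simpa using this
  | succ j hij ih =>
    refine lt_trans ih ?_
    have := (hu.2.2 (j + 1) (by omega)).1.1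
    simpa using this

lemma le_of_isUlam (hu : IsUlamSequence u) (i : ℕ) (hi : 1 ≤ i) : i ≤ u i := by
  induction i, hi using Nat.le_induction with
  | base => rw [hu.1]
  | succ n hn ih =>
    have := lt_of_isUlam hu n (n + 1) hn (by omega)
    omega

/-- membership in the sequence -/
def Mem (u : ℕ → ℕ) (m : ℕ) : Prop := ∃ i, 1 ≤ i ∧ u i = m

lemma index_lt (hu : IsUlamSequence u) {i j : ℕ} (hi : 1 ≤ i) (hj : 1 ≤ j) (h : u i < u j) : i < j := by
  by_contra hcon
  push Not at hcon
  rcases Nat.eq_or_lt_of_le hcon with h1 | h1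
  · rw [h1] at h; exact lt_irrefl _ h
  · exact lt_asymm h (lt_of_isUlam hu j i hj h1)

lemma index_eq (hu : IsUlamSequence u) {i j : ℕ} (hi : 1 ≤ i) (hj : 1 ≤ j) (h : u i = u j) : i = j := by
  rcases Nat.lt_trichotomy i j with h1 | h1 | h1
  · have := lt_of_isUlam hu i j hi h1; omega
  · exact h1
  · have := lt_of_isUlam hu j i hj h1; omega

lemma mem_iff (hu : IsUlamSequence u) (m : ℕ) (hm : 3 ≤ m) :
    Mem u m ↔ ∃! a : ℕ, 2 * a < m ∧ Mem u a ∧ Mem u (m - a) := by
  constructor
  · rintro ⟨n, hn, rfl⟩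
    have hn3 : 3 ≤ n := by
      by_contra hcon
      have : n = 1 ∨ n = 2 := by omega
      rcases this with h | h
      · rw [h, hu.1] at hm; omega
      · rw [h, hu.2.1] at hm; omega
    obtain ⟨⟨i, j⟩, ⟨hi, hij, hj, hs⟩, huniq⟩ := (hu.2.2 n hn3).1.2
    simp only at hi hij hj hs
    have h1 := lt_of_isUlam hu i j hi hij
    refine ⟨u i, ⟨by omega, ⟨i, hi, rfl⟩, ⟨j, by omega, by omega⟩⟩, ?_⟩
    rintro a ⟨ha, ⟨i', hi', rfl⟩, ⟨j', hj', hj''⟩⟩
    have h2 : u i' < u j' := by omega
    have h3 := index_lt hu hi' hj' h2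
    have hpos : i' ≤ u i' := le_of_isUlam hu i' hi'
    have h4 : j' < n := index_lt hu hj' hn (by omega)
    have h5 := huniq (i', j') ⟨hi', h3, h4, by simp only; omega⟩
    rw [Prod.mk.injEq] at h5
    rw [h5.1]
  · rintro ⟨a, ⟨ha, ⟨i, hi, rfl⟩, ⟨j, hj, hj'⟩⟩, huniq⟩
    have hij : i < j := index_lt hu hi hj (by omega)
    -- least index with `m ≤ u n`
    have hex : ∃ n, 1 ≤ n ∧ m ≤ u n := ⟨m, by omega, le_of_isUlam hu m (by omega)⟩
    classical
    set n := Nat.find hex with hn
    have hn1 := Nat.find_spec hex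
    rw [← hn] at hn1
    have hn3 : 3 ≤ n := by
      by_contra hcon
      have : n = 1 ∨ n = 2 := by omega
      rcases this with h | h
      · rw [h, hu.1] at hn1; omega
      · rw [h, hu.2.1] at hn1; omega
    have hprev : u (n - 1) < m := by
      have := Nat.find_min hex (show n - 1 < n by omega)
      push Not at this
      exact this (by omega)
    have hposi : i ≤ u i := le_of_isUlam hu i hi
    have hjn : j < n := index_lt hu hj hn1.1 (by omega)
    have hmem : m ∈ {m : ℕ | u (n - 1) < m ∧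
        ∃! p : ℕ × ℕ, 1 ≤ p.1 ∧ p.1 < p.2 ∧ p.2 < n ∧ u p.1 + u p.2 = m} := by
      refine ⟨hprev, (i, j), ⟨hi, hij, hjn, by simp only; omega⟩, ?_⟩
      rintro ⟨i', j'⟩ ⟨hi', hij', hj'', hs'⟩
      simp only at hi' hij' hj'' hs'
      have h1 := lt_of_isUlam hu i' j' hi' hij'
      have h2 := huniq (u i') ⟨by omega, ⟨i', hi', rfl⟩, ⟨j', by omega, by omega⟩⟩
      have h3 := index_eq hu hi' hi h2
      subst h3
      have h4 := index_eq hu (show 1 ≤ j' by omega) hj (by omega)
      rw [h4]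
    have := (hu.2.2 n hn3).2 hmem
    exact ⟨n, hn1.1, by omega⟩

lemma sum_iff (hu : IsUlamSequence u) (m : ℕ) :
    SumOfAtMostTwo u m ↔ Mem u m ∨ ∃ a : ℕ, 2 * a < m ∧ Mem u a ∧ Mem u (m - a) := by
  unfold SumOfAtMostTwo
  constructor
  · rintro (h | ⟨i, j, hi, hij, hs⟩)
    · exact Or.inl h
    · right
      have := lt_of_isUlam hu i j hi hij
      exact ⟨u i, by omega, ⟨i, hi, rfl⟩, ⟨j, by omega, by omega⟩⟩
  · rintro (h | ⟨a, ha, ⟨i, hi, rfl⟩, ⟨j, hj, hj'⟩⟩)
    · exact Or.inl h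
    · right
      exact ⟨i, j, hi, index_lt hu hi hj (by omega), by omega⟩

end general

end Pool.Agent.Helper10.Ulam
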