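import Mathlib

set_option autoImplicit false

namespace Pool.Agent.Helper10.Ulam

/-- `u 1, u 2, ...` is the Ulam sequence with initial values `1, 2`: for `n ≥ 3` the term `u n` is
the least integer greater than `u (n - 1)` that can be written in exactly one way as
`u i + u j` with `1 ≤ i < j < n`. (The value `u 0` plays no role.) -/
def IsUlamSequence (u : ℕ → ℕ) : Prop :=
  u 1 = 1 ∧ u 2 = 2 ∧ ∀ n, 3 ≤ n →
    IsLeast {m : ℕ | u (n - 1) < m ∧
      ∃! p : ℕ × ℕ, 1 ≤ p.1 ∧ p.1 < p.2 ∧ p.2 < n ∧ u p.1 + u p.2 = m} (u n)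

/-- `m` is a term `u i`, or a sum `u i + u j` of two distinct terms. -/
def SumOfAtMostTwo (u : ℕ → ℕ) (m : ℕ) : Prop :=
  (∃ i, 1 ≤ i ∧ u i = m) ∨ ∃ i j, 1 ≤ i ∧ i < j ∧ u i + u j = m

/-- The Lucas numbers. -/
def lucas : ℕ → ℕ
  | 0 => 2
  | 1 => 1
  | n + 2 => lucas (n + 1) + lucas n

end Pool.Agent.Helper10.Ulam
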