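import Pool.Agent.Helper10.Ulam.Basic

set_option autoImplicit false

namespace Pool.Agent.Helper10.Ulam

def bit (b m : Nat) : Bool := Nat.beq (Nat.land (Nat.shiftRight b m) 1) 1

def isPow (y : Nat) : Bool :=
  (bif Nat.beq y 0 then false else Nat.beq (Nat.land y (Nat.sub y 1)) 0)

def Y (B R N m : Nat) : Nat :=
  Nat.mod (Nat.land B (Nat.shiftRight R (Nat.sub N m))) (Nat.pow 2 (Nat.div (Nat.add m 1) 2))

def chk (B R N : Nat) : Nat → Bool
  | 0 => true
  | m + 1 => (bif (bif Nat.ble m 1 then true else
      (bif bit B (m + 1) then isPow (Y B R N (m + 1)) else
        (bif isPow (Y B R N (m + 1)) then false else true))) then chk B R N m else false)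

def chk2 (B R N : Nat) : Nat → Bool
  | 0 => (bif bit R 0 then bit B N else (bif bit B N then false else true))
  | m + 1 => (bif (bif bit R (m + 1) then bit B (Nat.sub N (m + 1)) else
      (bif bit B (Nat.sub N (m + 1)) then false else true)) then chk2 B R N m else false)

lemma bit_eq (b m : ℕ) : bit b m = b.testBit m := by
  unfold bit
  rw [show Nat.land (Nat.shiftRight b m) 1 = (b >>> m) &&& 1 from rfl]
  rw [Nat.testBit, Nat.and_comm 1]
  rcases Nat.mod_two_eq_zero_or_one (b >>> m) with h | h
  · rw [Nat.and_one_is_mod, h]; rfl
  · rw [Nat.and_one_is_mod, h]; rfl

lemma isPow_iff (y : ℕ) : isPow y = true ↔ ∃! a, y.testBit a = true := by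
  have h1 : isPow y = true ↔ y.isPowerOfTwo := by
    rw [← Nat.ne_zero_and_sub_one_eq_zero_iff_isPowerOfTwo]
    unfold isPow
    rw [show Nat.land y (Nat.sub y 1) = y &&& (y - 1) from rfl]
    by_cases hy : y = 0
    · subst hy
      simp
    · have : Nat.beq y 0 = false := by
        rw [← Bool.not_eq_true, Nat.beq_eq]
        exact hy
      rw [this, cond_false, Nat.beq_eq]
      exact ⟨fun h => ⟨hy, h⟩, fun h => h.2⟩
  rw [h1]
  constructor
  · rintro ⟨k, rfl⟩
    refine ⟨k, Nat.testBit_two_pow_self, ?_⟩
    intro a ha
    simp only [Nat.testBit_two_pow, decide_eq_true_eq] at ha
    exact ha.symm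
  · rintro ⟨k, hk, huniq⟩
    refine ⟨k, ?_⟩
    apply Nat.eq_of_testBit_eq
    intro i
    by_cases hi : y.testBit i = true
    · have := huniq i hi
      subst this
      rw [hi, Nat.testBit_two_pow_self]
    · rw [Bool.not_eq_true] at hi
      rw [hi, Nat.testBit_two_pow_of_ne]
      rintro rfl
      rw [hk] at hi
      exact Bool.noConfusion hi

lemma Y_testBit (B R N m a : ℕ) :
    (Y B R N m).testBit a = (decide (2 * a < m) && (B.testBit a && R.testBit (N - m + a))) := by
  unfold Y
  rw [show Nat.mod (Nat.land B (Nat.shiftRight R (Nat.sub N m))) (Nat.pow 2 (Nat.div (Nat.add m 1) 2)) =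
    (B &&& (R >>> (N - m))) % 2 ^ ((m + 1) / 2) from rfl]
  rw [Nat.testBit_mod_two_pow, Nat.testBit_and, Nat.testBit_shiftRight]
  congr 1
  rw [decide_eq_decide]
  omega

lemma chk_spec (B R N : ℕ) (n : ℕ) (h : chk B R N n = true) :
    ∀ m, 3 ≤ m → m ≤ n → bit B m = isPow (Y B R N m) := by
  induction n with
  | zero => intro m h1 h2; omega
  | succ n ih =>
    intro m h1 h2
    unfold chk at h
    have h3 : chk B R N n = true := by
      revert h
      generalize (bif Nat.ble n 1 then true else _) = c
      cases c
      · intro h; exact absurd h (by simp)
      · intro h; exact h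
    rcases Nat.lt_or_ge m (n + 1) with h4 | h4
    · exact ih h3 m h1 (by omega)
    · have hm : m = n + 1 := by omega
      subst hm
      rw [h3] at h
      have hble : Nat.ble n 1 = false := by
        rw [← Bool.not_eq_true, Nat.ble_eq]
        omega
      rw [hble, cond_false] at h
      revert h
      cases bit B (n + 1) <;> cases isPow (Y B R N (n + 1)) <;> simp

lemma chk2_spec (B R N : ℕ) (n : ℕ) (h : chk2 B R N n = true) :
    ∀ j, j ≤ n → bit R j = bit B (N - j) := by
  induction n with
  | zero =>
    intro j hj
    have : j = 0 := by omega
    subst this
    unfold chk2 at h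
    rw [Nat.sub_zero]
    revert h
    cases bit R 0 <;> cases bit B N <;> simp
  | succ n ih =>
    intro j hj
    unfold chk2 at h
    have h3 : chk2 B R N n = true := by
      revert h
      generalize (bif bit R (n + 1) then _ else _) = c
      cases c
      · intro h; exact absurd h (by simp)
      · intro h; exact h
    rcases Nat.lt_or_ge j (n + 1) with h4 | h4
    · exact ih h3 j (by omega)
    · have hm : j = n + 1 := by omega
      subst hm
      rw [h3] at h
      rw [show Nat.sub N (n + 1) = N - (n + 1) from rfl] at h
      revert h
      cases bit R (n + 1) <;> cases bit B (N - (n + 1)) <;> simp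

/-- Everything about membership up to `N` is read off the mask `B`. -/
lemma mem_iff_bit (B R N : ℕ) (h0 : bit B 0 = false) (h1 : bit B 1 = true) (h2 : bit B 2 = true)
    (hc : chk B R N N = true) (hc2 : chk2 B R N N = true) {u : ℕ → ℕ} (hu : IsUlamSequence u) :
    ∀ m ≤ N, (Mem u m ↔ B.testBit m = true) := by
  intro m
  induction m using Nat.strong_induction_on with
  | _ m ih =>
    intro hm
    rw [bit_eq] at h0 h1 h2
    by_cases hm3 : 3 ≤ m
    · rw [mem_iff hu m hm3]
      have h3 := chk_spec B R N N hc m hm3 hm
      rw [bit_eq] at h3
      rw [h3, isPow_iff]
      apply existsUnique_congr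
      intro a
      rw [Y_testBit]
      simp only [Bool.and_eq_true, decide_eq_true_eq]
      constructor
      · rintro ⟨ha, hma, hmb⟩
        have ha0 : a ≠ 0 := by
          rintro rfl
          rw [ih 0 (by omega) (by omega), h0] at hma
          exact Bool.noConfusion hma
        rw [ih a (by omega) (by omega)] at hma
        rw [ih (m - a) (by omega) (by omega)] at hmb
        refine ⟨ha, hma, ?_⟩
        have h4 := chk2_spec B R N N hc2 (N - m + a) (by omega)
        rw [bit_eq, bit_eq, show N - (N - m + a) = m - a by omega] at h4
        rw [h4]
        exact hmb
      · rintro ⟨ha, hma, hmb⟩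
        have ha0 : a ≠ 0 := by
          rintro rfl
          rw [h0] at hma
          exact Bool.noConfusion hma
        have h4 := chk2_spec B R N N hc2 (N - m + a) (by omega)
        rw [bit_eq, bit_eq, show N - (N - m + a) = m - a by omega] at h4
        rw [h4] at hmb
        refine ⟨ha, ?_, ?_⟩
        · rw [ih a (by omega) (by omega)]; exact hma
        · rw [ih (m - a) (by omega) (by omega)]; exact hmb
    · have : m = 0 ∨ m = 1 ∨ m = 2 := by omega
      rcases this with rfl | rfl | rfl
      · rw [h0]
        constructor
        · rintro ⟨i, hi, hi'⟩
          have := le_of_isUlam hu i hi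
          omega
        · intro h; exact Bool.noConfusion h
      · rw [h1]
        exact ⟨fun _ => rfl, fun _ => ⟨1, le_rfl, hu.1⟩⟩
      · rw [h2]
        exact ⟨fun _ => rfl, fun _ => ⟨2, by norm_num, hu.2.1⟩⟩

/-- If `m` is not in the mask and no pair is, then `m` is not a sum of at most two terms. -/
lemma not_sum (B R N : ℕ) (h0 : bit B 0 = false) (h1 : bit B 1 = true) (h2 : bit B 2 = true)
    (hc : chk B R N N = true) (hc2 : chk2 B R N N = true) {u : ℕ → ℕ} (hu : IsUlamSequence u)
    (m : ℕ) (hm : m ≤ N) (hb : bit B m = false) (hY : Nat.beq (Y B R N m) 0 = true) :
    ¬ SumOfAtMostTwo u m := by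
  rw [sum_iff hu]
  have hiff := mem_iff_bit B R N h0 h1 h2 hc hc2 hu
  rw [bit_eq] at hb h0
  rintro (h | ⟨a, ha, hma, hmb⟩)
  · rw [hiff m hm, hb] at h
    exact Bool.noConfusion h
  · rw [hiff a (by omega)] at hma
    rw [hiff (m - a) (by omega)] at hmb
    have h4 := chk2_spec B R N N hc2 (N - m + a) (by omega)
    rw [bit_eq, bit_eq, show N - (N - m + a) = m - a by omega] at h4
    have h5 : (Y B R N m).testBit a = true := by
      rw [Y_testBit, h4, hma, hmb]
      simp [ha]
    rw [Nat.beq_eq] at hY
    rw [hY, Nat.zero_testBit] at h5
    exact Bool.noConfusion h5

/-- The mask of the Ulam numbers up to 6765. -/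
def maskB : Nat := 0x14800a000000000000000010000a0000000000040002800140000029000000000280000a00002800140400028000004005000000a40050000008000000001480000000000000050000140000400001480000000010000a4000290000000000000000000500000000005080014a0005200000240050002800000520000000000000000000a000028000000000010000a00000000000400028001400000290000000000000000000000001400000200000800050000148000520001400000000014000052000148000000000400001000280000a120029001400005000000a0000000000a0000290000a400000000000000000014000000000140000520000080000000014000052000148000500001400000000014800a0000000000040002800000000029001400005280000a0005000000240000000140000020000080000080000a00a500000024000200000000002000140000400000480004005010000040050000000400500000000000200014000000000148000500028000005080000a00002000142400520028000000000290000a0000000800a120001480000000280000a40002900000000000000020005000000a0000090000a40a0000000000002000008000028001420005200000a40a0000000000a000000000000000290000a000000000000000280014a000028000004005000000a000001000004005004000a5005200000212050000140000020028000005200014000a000001400000200000800040000148000000001000000005280000000000000000400001000004000290000a4000000014000050000140000020001400005200000800050000000000520001400005000014000042000100000120028000004000010014a00000100140400000000024005080014200012000142400000029000005000280200010800148000029001000000000210000040000100008400029028000000200000a0000280000010002942940000008480000000200000800002002800000520028000001000014000a0000000800850050000008520021000004000090010a4000200014000050000140000420028000001080204a0005205004040040850002800109020000004020014200a50002802402020528000081204084004044a00842120422180501405295e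

/-- The reversed mask. -/
def maskR : Nat := 0x1ea5280a028061108121084014880800840812040000528101009005000294010a00100800000102420005000284080080802812800148100420000005001080000a0000280000a000100009420024000080000210012840000028028400400000014000a000020000005001280000050010000040000100000000484000000a50a5000200000050000140000100000005025000084000200000800002100000000020025000004a00042000100500028000025000000090a0001200010a000428009000000000080a0020000014a00200000800000500120000020001080000a0000280000a00012800000000028000400001280000a0001000000a0000280000a00000000940002500008000020000080000000000000000528000000020000000004a000008000400001000000a0000014000a000128000005001000000a00002812100000128029400080280080000200000140000028008000005000014a00050000000000000001400025000000000000000140000000001409400001280010a000500000400001000000000000140940002400001400000280010000000000000002500009400005000000004a0001214004000000140002500000000005001280090a00010000140000428000005000280004a0000000000a000100000000000280080000002800800002028008000480000080000a000100000000001000090000002940140000400000400001000000a00000000900000028001400005280000a00250000000000500008000000000014004a0000000000a0000280004a0001280000a000000000400001280000a0000000000a000000000000000000094000250000140000000001400000280000a00250012140000500020000080000000004a0001280000a0000000000a0001280004a000028000400001000000a00000000000000000000000025000000a000500008000000000014000200000000000500001400000000000000000012800000500028009000001280014a000428000000000280000000000000000002500009400020000000004a0000080000a000028000000000000004a0000000004000002800940000028008000005000080a00050000140000500000000025000000a0005000080000000000140002000000000000000014004a000000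

set_option maxRecDepth 100000 in
lemma chk_mask : chk maskB maskR 6765 6765 = true := by decide +kernel

set_option maxRecDepth 100000 in
lemma chk2_mask : chk2 maskB maskR 6765 6765 = true := by decide +kernel

lemma lucas_17 : lucas 17 = 3571 := by decide

lemma not_sum_lucas {u : ℕ → ℕ} (hu : IsUlamSequence u) : ¬ SumOfAtMostTwo u (lucas 17) := by
  rw [lucas_17]
  exact not_sum maskB maskR 6765 (by decide +kernel) (by decide +kernel) (by decide +kernel)
    chk_mask chk2_mask hu 3571 (by norm_num) (by decide +kernel) (by decide +kernel)

lemma not_sum_fib {u : ℕ → ℕ} (hu : IsUlamSequence u) : ¬ SumOfAtMostTwo u (Nat.fib 20) := by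
  rw [show Nat.fib 20 = 6765 by decide +kernel]
  exact not_sum maskB maskR 6765 (by decide +kernel) (by decide +kernel) (by decide +kernel)
    chk_mask chk2_mask hu 6765 (by norm_num) (by decide +kernel) (by decide +kernel)

theorem main : (∃ u : ℕ → ℕ, IsUlamSequence u) ∧
    ∀ u : ℕ → ℕ, IsUlamSequence u →
      (¬ SumOfAtMostTwo u (Nat.fib 20)) ∧ (¬ SumOfAtMostTwo u (lucas 17)) :=
  ⟨⟨ulam, isUlamSequence_ulam⟩, fun _ hu => ⟨not_sum_fib hu, not_sum_lucas hu⟩⟩

end Pool.Agent.Helper10.Ulam
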